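import Mathlib
import Pool.Agent.TH236.Net6

namespace Pool.Agent.Results.MP_2d87f2_co.FixedDegree

/-- The set of edges of `G` with exactly one endpoint in `A`. -/
def edgeBoundary {V : Type} (G : SimpleGraph V) (A : Finset V) : Set (Sym2 V) :=
  {e | e ∈ G.edgeSet ∧ ∃ u ∈ A, ∃ v, v ∉ A ∧ e = s(u, v)}

/-- The Cheeger constant: the infimum of `|∂A| / |A|` over finite nonempty sets `A`. -/
noncomputable def cheeger {V : Type} (G : SimpleGraph V) : ℝ :=
  sInf {x : ℝ | ∃ A : Finset V, A.Nonempty ∧ x = ((edgeBoundary G A).ncard : ℝ) / (A.card : ℝ)}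

/-- Every two distinct vertices of `S` are at distance at least `k`. -/
def Separated {V : Type} (G : SimpleGraph V) (k : ℕ) (S : Set V) : Prop :=
  ∀ u ∈ S, ∀ v ∈ S, u ≠ v → k ≤ G.dist u v

/-- A `k`-net: a maximal set of vertices which are pairwise at distance at least `k`. -/
def IsNet {V : Type} (G : SimpleGraph V) (k : ℕ) (S : Set V) : Prop :=
  Maximal (Separated G k) S

/-- The net graph of a set `S`: distinct vertices of `S` are adjacent when their distance
in `G` is at most `2 * k`. -/
def netGraph {V : Type} (G : SimpleGraph V) (k : ℕ) (S : Set V) : SimpleGraph S where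
  Adj u v := u ≠ v ∧ G.dist (u : V) (v : V) ≤ 2 * k
  symm := ⟨fun u v h => ⟨h.1.symm, by rw [SimpleGraph.dist_comm]; exact h.2⟩⟩
  loopless := ⟨fun u h => h.1 rfl⟩

/-- `G` is vertex-transitive. -/
def VertexTransitive {V : Type} (G : SimpleGraph V) : Prop :=
  ∀ u v : V, ∃ φ : G ≃g G, φ u = v

/-- Negative answer to Q2: for some degree `D`, for every `C > 0` there are an infinite connected
vertex-transitive graph `G` all of whose vertices have exactly `D` neighbours, with Cheeger
constant at least `1`, an integer `k ≥ 1` and a `k`-net of `G` whose net graph has Cheeger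
constant smaller than `C`, hence smaller than `C` times the Cheeger constant of `G`. -/
theorem result :
    ∃ D : ℕ, ∀ C : ℝ, 0 < C →
      ∃ (V : Type) (G : SimpleGraph V), Infinite V ∧ G.Connected ∧ VertexTransitive G ∧
        (∀ v, (G.neighborSet v).Finite ∧ (G.neighborSet v).ncard = D) ∧
        1 ≤ cheeger G ∧
        ∃ k : ℕ, 1 ≤ k ∧ ∃ S : Set V, IsNet G k S ∧ cheeger (netGraph G k S) < C ∧
          cheeger (netGraph G k S) < C * cheeger G :=
  Pool.Agent.TH236.Net.final

end Pool.Agent.Results.MP_2d87f2_co.FixedDegree
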